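import Mathlib
import Pool.Agent.Helper111.EN.Resid
import Pool.Agent.Q98.CG.Aut

/-!
# Automorphisms acting trivially on quotients, and lower central series of subgroups
-/

set_option autoImplicit false

open scoped commutatorElement

namespace Pool.Agent.Q98.JF

open Pool.Agent.Q98.CG

variable {G : Type} [Group G]

/-- the automorphisms which act trivially on `G / L` -/
def AK (L : Subgroup G) : Subgroup (MulAut G) where
  carrier := {ψ | ∀ x, x⁻¹ * ψ x ∈ L}
  one_mem' := by intro x; simp [L.one_mem]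
  mul_mem' := by
    intro a b ha hb x
    have h1 := L.mul_mem (hb x) (ha (b x))
    rw [mul_assoc, mul_inv_cancel_left] at h1
    exact h1
  inv_mem' := by
    intro a ha x
    have h1 := L.inv_mem (ha (a⁻¹ x))
    rw [MulAut.apply_inv_self, mul_inv_rev, inv_inv] at h1
    exact h1

lemma mem_AK {L : Subgroup G} {ψ : MulAut G} : ψ ∈ AK L ↔ ∀ x, x⁻¹ * ψ x ∈ L := Iff.rfl

lemma AK_mono {L L' : Subgroup G} (h : L ≤ L') : AK L ≤ AK L' := fun _ hψ x => h (hψ x)

lemma char_mem {L : Subgroup G} (hL : L.Characteristic) (φ : MulAut G) (x : G) :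
    φ x ∈ L ↔ x ∈ L := by
  have h := hL.fixed φ
  rw [Subgroup.ext_iff] at h
  exact h x

lemma AK_normal {L : Subgroup G} (hL : L.Characteristic) : (AK L).Normal := by
  constructor
  intro ψ hψ φ x
  have h1 := (char_mem hL φ ((φ⁻¹ x)⁻¹ * ψ (φ⁻¹ x))).2 (hψ (φ⁻¹ x))
  rw [map_mul, map_inv, MulAut.apply_inv_self] at h1
  exact h1

lemma AK_index {k : ℕ} {gen : Fin k → G} (hgen : Subgroup.closure (Set.range gen) = ⊤)
    (K : Subgroup G) [K.Normal] [K.FiniteIndex] : (AK K).FiniteIndex := by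
  let π := QuotientGroup.mk' K
  let F : MulAut G ⧸ AK K → (Fin k → G ⧸ K) := fun q => fun i => π ((q.out)⁻¹ (gen i))
  have hF : Function.Injective F := by
    intro q q' h
    have h1 : π.comp ((q.out)⁻¹ : MulAut G).toMonoidHom
        = π.comp ((q'.out)⁻¹ : MulAut G).toMonoidHom := by
      refine MonoidHom.eq_of_eqOn_dense hgen ?_
      rintro _ ⟨i, rfl⟩
      exact congrFun h i
    have h2 : (q.out)⁻¹ * q'.out ∈ AK K := by
      intro x
      have h3 := DFunLike.congr_fun h1 (q'.out x)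
      change π ((q.out)⁻¹ (q'.out x)) = π ((q'.out)⁻¹ (q'.out x)) at h3
      rw [MulAut.inv_apply_self] at h3
      have h4 : π x = π ((q.out)⁻¹ (q'.out x)) := h3.symm
      exact QuotientGroup.eq.1 h4
    rw [← QuotientGroup.eq, QuotientGroup.out_eq', QuotientGroup.out_eq'] at h2
    exact h2
  have hfinK : Finite (G ⧸ K) := Subgroup.finite_quotient_of_finiteIndex
  have hfin : Finite (MulAut G ⧸ AK K) := Finite.of_injective F hF
  exact Subgroup.finiteIndex_of_finite_quotient

lemma exists_char {k : ℕ} {gen : Fin k → G} (hgen : Subgroup.closure (Set.range gen) = ⊤)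
    (K : Subgroup G) (hK : K.FiniteIndex) :
    ∃ L : Subgroup G, L.Characteristic ∧ L.FiniteIndex ∧ L ≤ K := by
  have hfin : Finite (G ⧸ K.normalCore) := Subgroup.finite_quotient_of_finiteIndex
  have hhom : Finite (G →* G ⧸ K.normalCore) := by
    refine Finite.of_injective (fun f : G →* G ⧸ K.normalCore => fun i : Fin k => f (gen i)) ?_
    intro f f' h
    refine MonoidHom.eq_of_eqOn_dense hgen ?_
    rintro _ ⟨i, rfl⟩
    exact congrFun h i
  refine ⟨⨅ f : G →* G ⧸ K.normalCore, f.ker, ?_, ?_, ?_⟩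
  · rw [Subgroup.characteristic_iff_le_comap]
    intro φ g hg
    rw [Subgroup.mem_comap, Subgroup.mem_iInf]
    intro f
    rw [Subgroup.mem_iInf] at hg
    exact hg (f.comp φ.toMonoidHom)
  · have : ∀ f : G →* G ⧸ K.normalCore, f.ker.FiniteIndex := fun f => by
      have : Finite f.range := inferInstance
      exact Subgroup.finiteIndex_ker f
    exact Subgroup.finiteIndex_iInf fun f => inferInstance
  · intro g hg
    have h1 := (Subgroup.mem_iInf.1 hg) (QuotientGroup.mk' K.normalCore)
    rw [QuotientGroup.ker_mk'] at h1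
    exact K.normalCore_le h1

/-- a subgroup of finite index which avoids finitely many elements -/
lemma avoid {A : Type} [Group A] [Group.IsNilpotent A] [Group.FG A] (S : Finset A)
    (hS : (1 : A) ∉ S) : ∃ K : Subgroup A, K.FiniteIndex ∧ ∀ s ∈ S, s ∉ K := by
  classical
  induction S using Finset.induction_on with
  | empty => exact ⟨⊤, inferInstance, by simp⟩
  | insert s S _ ih =>
    simp only [Finset.mem_insert, not_or] at hS
    obtain ⟨K, hf, hK⟩ := ih hS.2
    obtain ⟨r, _, _, N, hN, hs, hfin, _⟩ := Pool.Agent.Helper111.EN.resid (K := A) (∅ : Set ℕ)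
      (by simp) 2 Nat.prime_two (by simp) (by simp) s (Ne.symm hS.1)
    have hNf : N.FiniteIndex := Subgroup.finiteIndex_of_finite_quotient
    refine ⟨K ⊓ N, inferInstance, ?_⟩
    intro t ht htK
    rw [Finset.mem_insert] at ht
    rcases ht with rfl | ht
    · exact hs htK.2
    · exact hK t ht htK.1

section
variable (K : Subgroup G)

lemma comm_mem {c : ℕ} {z g : G} (hz : z ∈ K.lowerCentralSeries c) (hg : g ∈ K) :
    z * g * z⁻¹ * g⁻¹ ∈ K.lowerCentralSeries (c + 1) := by
  rw [Subgroup.mem_lowerCentralSeries_succ_iff]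
  exact Subgroup.subset_closure ⟨z, hz, g, hg, commutatorElement_def z g⟩

lemma central [K.Normal] {c : ℕ} {z g : G} (hz : z ∈ K.lowerCentralSeries c) (hg : g ∈ K) :
    QuotientGroup.mk' (K.lowerCentralSeries (c + 1)) g
      * QuotientGroup.mk' (K.lowerCentralSeries (c + 1)) z
    = QuotientGroup.mk' (K.lowerCentralSeries (c + 1)) z
      * QuotientGroup.mk' (K.lowerCentralSeries (c + 1)) g := by
  rw [← map_mul, ← map_mul]
  refine QuotientGroup.eq.2 ?_
  have h1 := comm_mem K hz hg
  have h3 : (g * z)⁻¹ * (z * g) = (g * z)⁻¹ * (z * g * z⁻¹ * g⁻¹) * ((g * z)⁻¹)⁻¹ := by group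
  rw [h3]
  exact (inferInstance : (K.lowerCentralSeries (c + 1)).Normal).conj_mem _ h1 _

/-- automorphisms trivial modulo `γ` are trivial on `γ / γ'`, the next layer -/
lemma tr [K.Normal] {c : ℕ} {ψ : MulAut G} (hψ : ψ ∈ AK (K.lowerCentralSeries (c + 1))) {z : G}
    (hz : z ∈ K.lowerCentralSeries (c + 1)) :
    QuotientGroup.mk' (K.lowerCentralSeries (c + 2)) (ψ z)
      = QuotientGroup.mk' (K.lowerCentralSeries (c + 2)) z := by
  rw [Subgroup.mem_lowerCentralSeries_succ_iff] at hz
  induction hz using Subgroup.closure_induction with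
  | mem z hz =>
    obtain ⟨p, hp, q, hq, rfl⟩ := hz
    rw [commutatorElement_def]
    have hpK : p ∈ K := (Subgroup.lowerCentralSeries_le_self K c) hp
    have haK : p⁻¹ * ψ p ∈ K := (Subgroup.lowerCentralSeries_le_self K _) (hψ p)
    have hbK : q⁻¹ * ψ q ∈ K := (Subgroup.lowerCentralSeries_le_self K _) (hψ q)
    have ha := central K (hψ p) (K.mul_mem hq hbK)
    have hb := central K (hψ q) (K.inv_mem hpK)
    set π := QuotientGroup.mk' (K.lowerCentralSeries (c + 2)) with hπ
    have hp2 : π (ψ p) = π p * π (p⁻¹ * ψ p) := by rw [← map_mul, mul_inv_cancel_left]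
    have hq2 : π (ψ q) = π q * π (q⁻¹ * ψ q) := by rw [← map_mul, mul_inv_cancel_left]
    rw [map_mul π q, ] at ha
    rw [map_inv] at hb
    set a := π (p⁻¹ * ψ p)
    set b := π (q⁻¹ * ψ q)
    rw [map_mul, map_mul, map_mul, map_inv, map_inv, map_mul, map_mul, map_mul, map_inv, map_inv,
      map_mul, map_mul, map_mul, map_inv, map_inv, hp2, hq2, mul_inv_rev, mul_inv_rev]
    calc π p * a * (π q * b) * (a⁻¹ * (π p)⁻¹) * (b⁻¹ * (π q)⁻¹)
        = π p * (a * (π q * b) * a⁻¹) * (π p)⁻¹ * (b⁻¹ * (π q)⁻¹) := by group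
      _ = π p * (π q * b) * (π p)⁻¹ * (b⁻¹ * (π q)⁻¹) := by
          rw [← ha, mul_inv_cancel_right]
      _ = π p * π q * (b * (π p)⁻¹ * b⁻¹) * (π q)⁻¹ := by group
      _ = π p * π q * (π p)⁻¹ * (π q)⁻¹ := by
          rw [← hb, mul_inv_cancel_right]
  | one => rw [map_one]
  | mul x y _ _ hx hy => rw [map_mul, map_mul, map_mul, hx, hy]
  | inv x _ hx => rw [map_inv, map_inv, map_inv, hx]

end

end Pool.Agent.Q98.JF
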