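import Pool.Agent.Q98.JF.Main

/-!
# The statement for a finitely generated group
-/

set_option autoImplicit false

namespace Pool.Agent.Q98.JF

open Pool.Agent.Q98.CG

/-- `N ≤ Aut(G)` contains all automorphisms acting trivially on `G / L` for some characteristic
subgroup `L` of finite index -/
def Cong {G : Type} [Group G] (N : Subgroup (MulAut G)) : Prop :=
  ∃ L : Subgroup G, L.Characteristic ∧ L.FiniteIndex ∧ AK L ≤ N

variable {G : Type} [Group G]

/-- for subgroups of `Out(G)` inner automorphisms may be ignored -/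
theorem out_iff {L : Subgroup G} (hL : L.Characteristic) {N : Subgroup (MulAut G)}
    (hI : Inn G ≤ N) : AK L ≤ N ↔
      ∀ ψ : MulAut G, (∃ g : G, ∀ x : G, ψ x * (g * x * g⁻¹)⁻¹ ∈ L) → ψ ∈ N := by
  constructor
  · rintro h3 ψ ⟨g, hg⟩
    have h4 : (MulAut.conj g)⁻¹ * ψ ∈ AK L := by
      intro x
      have h5 : x⁻¹ * ((MulAut.conj g)⁻¹ * ψ) x = (x⁻¹ * g⁻¹) * (ψ x * (g * x * g⁻¹)⁻¹) *
          (x⁻¹ * g⁻¹)⁻¹ := by
        rw [MulAut.mul_apply, MulAut.conj_inv_apply]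
        group
      rw [h5]
      exact (inferInstance : L.Normal).conj_mem _ (hg x) _
    have h6 : ψ = MulAut.conj g * ((MulAut.conj g)⁻¹ * ψ) := by rw [mul_inv_cancel_left]
    rw [h6]
    exact N.mul_mem (hI ⟨g, rfl⟩) (h3 h4)
  · intro h3 ψ hψ
    refine h3 ψ ⟨1, fun x => ?_⟩
    have h4 := (inferInstance : L.Normal).conj_mem _ (hψ x) x
    have h5 : ψ x * (1 * x * 1⁻¹)⁻¹ = x * (x⁻¹ * ψ x) * x⁻¹ := by group
    rw [h5]
    exact h4

theorem cong_iff {N : Subgroup (MulAut G)} (hI : Inn G ≤ N) : Cong N ↔ IsCong G N := by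
  constructor
  · rintro ⟨L, h1, h2, h3⟩
    exact ⟨L, h1, h2, (out_iff h1 hI).1 h3⟩
  · rintro ⟨L, h1, h2, h3⟩
    exact ⟨L, h1, h2, (out_iff h1 hI).2 h3⟩

end Pool.Agent.Q98.JF
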