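import Pool.Agent.Q98.JF.Core

/-!
# Finite-index subgroups containing the kernel of the action on `G / γ_c(K)`
-/

set_option autoImplicit false

namespace Pool.Agent.Q98.JF

open Pool.Agent.Q98.CG

variable {G : Type} [Group G]

lemma fg_of_gen {k : ℕ} {gen : Fin k → G} (hgen : Subgroup.closure (Set.range gen) = ⊤) :
    Group.FG G := by
  classical
  refine Group.fg_iff.2 ⟨Set.range gen, hgen, Set.finite_range gen⟩

lemma fi_comap {A B : Type} [Group A] [Group B] (f : A →* B) (H : Subgroup B)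
    (hH : H.FiniteIndex) : (H.comap f).FiniteIndex := by
  refine ⟨fun h => ?_⟩
  rw [Subgroup.index_comap] at h
  exact hH.index_ne_zero (by
    rw [← Subgroup.relIndex_top_right]
    exact Subgroup.relIndex_eq_zero_of_le_right le_top h)

/-- the nilpotent quotients of `K` -/
abbrev RQ (K : Subgroup G) (c : ℕ) : Type := K ⧸ ((⊤ : Subgroup K).lowerCentralSeries c)

lemma eqR {K : Subgroup G} [K.Normal] {c : ℕ} (x y : K) :
    (QuotientGroup.mk' ((⊤ : Subgroup K).lowerCentralSeries c) x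
      = QuotientGroup.mk' ((⊤ : Subgroup K).lowerCentralSeries c) y) ↔
    (QuotientGroup.mk' (K.lowerCentralSeries c) (x : G)
      = QuotientGroup.mk' (K.lowerCentralSeries c) (y : G)) := by
  have h1 : ∀ z : K, z ∈ (⊤ : Subgroup K).lowerCentralSeries c ↔
      (z : G) ∈ K.lowerCentralSeries c := by
    intro z
    rw [← Subgroup.top_subtype_lowerCentralSeries K c]
    exact (Subgroup.mem_map_iff_mem K.subtype_injective).symm
  constructor
  · intro h
    exact QuotientGroup.eq.2 ((h1 _).1 (QuotientGroup.eq.1 h))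
  · intro h
    exact QuotientGroup.eq.2 ((h1 _).2 (QuotientGroup.eq.1 h))

variable {K : Subgroup G}

/-- the values of `x⁻¹ ψ(x)` at the generators -/
def hh [K.Normal] (c : ℕ) {k : ℕ} (gen : Fin k → G) :
    AK (K.lowerCentralSeries (c + 1)) →* (Fin k → RQ K (c + 2)) where
  toFun ψ := fun i => QuotientGroup.mk' ((⊤ : Subgroup K).lowerCentralSeries (c + 2))
    ⟨(gen i)⁻¹ * ψ.1 (gen i), Subgroup.lowerCentralSeries_le_self K _ (ψ.2 (gen i))⟩
  map_one' := by
    funext i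
    rw [Pi.one_apply, ← map_one (QuotientGroup.mk' ((⊤ : Subgroup K).lowerCentralSeries (c + 2)))]
    congr 1
    apply Subtype.ext
    show (gen i)⁻¹ * (gen i) = 1
    rw [inv_mul_cancel]
  map_mul' ψ φ := by
    funext i
    rw [Pi.mul_apply, ← map_mul, eqR]
    show QuotientGroup.mk' (K.lowerCentralSeries (c + 2)) ((gen i)⁻¹ * ψ.1 (φ.1 (gen i)))
      = QuotientGroup.mk' (K.lowerCentralSeries (c + 2))
        ((gen i)⁻¹ * ψ.1 (gen i) * ((gen i)⁻¹ * φ.1 (gen i)))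
    have h2 := tr K ψ.2 (φ.2 (gen i))
    rw [map_mul _ ((gen i)⁻¹ * ψ.1 (gen i)), ← h2, ← map_mul, mul_assoc, ← map_mul ψ.1,
      mul_inv_cancel_left]

lemma hh_ker [K.Normal] {c : ℕ} {k : ℕ} {gen : Fin k → G}
    (hgen : Subgroup.closure (Set.range gen) = ⊤)
    {ψ : AK (K.lowerCentralSeries (c + 1))} (h : hh c gen ψ = 1) :
    ψ.1 ∈ AK (K.lowerCentralSeries (c + 2)) := by
  have h1 : (QuotientGroup.mk' (K.lowerCentralSeries (c + 2))).comp ψ.1.toMonoidHom
      = QuotientGroup.mk' (K.lowerCentralSeries (c + 2)) := by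
    refine MonoidHom.eq_of_eqOn_dense hgen ?_
    rintro _ ⟨i, rfl⟩
    have h2 : QuotientGroup.mk' ((⊤ : Subgroup K).lowerCentralSeries (c + 2))
        ⟨(gen i)⁻¹ * ψ.1 (gen i), Subgroup.lowerCentralSeries_le_self K _ (ψ.2 (gen i))⟩
        = QuotientGroup.mk' ((⊤ : Subgroup K).lowerCentralSeries (c + 2)) 1 := by
      rw [map_one]
      exact congrFun h i
    rw [eqR] at h2
    change QuotientGroup.mk' (K.lowerCentralSeries (c + 2)) ((gen i)⁻¹ * ψ.1 (gen i))
      = QuotientGroup.mk' (K.lowerCentralSeries (c + 2)) 1 at h2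
    rw [map_one, map_mul, map_inv, inv_mul_eq_one] at h2
    exact h2.symm
  intro x
  have h3 := DFunLike.congr_fun h1 x
  exact QuotientGroup.eq.1 h3.symm

lemma hh_central [K.Normal] {c : ℕ} {k : ℕ} {gen : Fin k → G}
    (ψ : AK (K.lowerCentralSeries (c + 1)))
    (t : Fin k → RQ K (c + 2)) : t * hh c gen ψ = hh c gen ψ * t := by
  funext i
  obtain ⟨s, hs⟩ := QuotientGroup.mk'_surjective _ (t i)
  rw [Pi.mul_apply, Pi.mul_apply, ← hs]
  show QuotientGroup.mk' _ s * QuotientGroup.mk' _ _ = QuotientGroup.mk' _ _ * _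
  rw [← map_mul, ← map_mul, eqR]
  have h1 := central K (ψ.2 (gen i)) s.2
  rw [← map_mul, ← map_mul] at h1
  exact h1

lemma quot_nilp {A : Type} [Group A] (c : ℕ) :
    Group.IsNilpotent (A ⧸ (⊤ : Subgroup A).lowerCentralSeries c) := by
  rw [Subgroup.nilpotent_iff_lowerCentralSeries]
  refine ⟨c, ?_⟩
  have h1 := Subgroup.map_lowerCentralSeries (S := (⊤ : Subgroup A))
    (QuotientGroup.mk' ((⊤ : Subgroup A).lowerCentralSeries c)) c
  rw [Subgroup.map_top_of_surjective _ (QuotientGroup.mk'_surjective _)] at h1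
  rw [← h1, Subgroup.map_eq_bot_iff, QuotientGroup.ker_mk']

/-- **one layer** -/
theorem key {k : ℕ} {gen : Fin k → G} (hgen : Subgroup.closure (Set.range gen) = ⊤)
    (hKc : K.Characteristic) (hKf : K.FiniteIndex) (c : ℕ)
    (N : Subgroup (MulAut G)) (hN : N.FiniteIndex) (h : AK (K.lowerCentralSeries (c + 2)) ≤ N) :
    ∃ L : Subgroup G, L.Characteristic ∧ L.FiniteIndex ∧
      AK L ⊓ AK (K.lowerCentralSeries (c + 1)) ≤ N := by
  classical
  have hfg : Group.FG G := fg_of_gen hgen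
  have hfgK : Group.FG K := inferInstance
  have hnil : Group.IsNilpotent (RQ K (c + 2)) := quot_nilp (c + 2)
  set A := AK (K.lowerCentralSeries (c + 1)) with hA
  let V : Subgroup (Fin k → RQ K (c + 2)) := (N.subgroupOf A).map (hh c gen)
  have hV : V.Normal := by
    constructor
    rintro _ ⟨ψ, _, rfl⟩ t
    rw [hh_central, mul_inv_cancel_right]
    exact ⟨ψ, ‹_›, rfl⟩
  let f : A →* (Fin k → RQ K (c + 2)) ⧸ V := (QuotientGroup.mk' V).comp (hh c gen)
  have hker : N.subgroupOf A ≤ f.ker := by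
    intro ψ hψ
    rw [MonoidHom.mem_ker]
    show QuotientGroup.mk' V (hh c gen ψ) = 1
    rw [← MonoidHom.mem_ker, QuotientGroup.ker_mk']
    exact ⟨ψ, hψ, rfl⟩
  have hkf : f.ker.FiniteIndex := Subgroup.finiteIndex_of_le hker
  have hrange : Finite f.range := by
    have : Finite (A ⧸ f.ker) := Subgroup.finite_quotient_of_finiteIndex
    exact Finite.of_equiv _ (QuotientGroup.quotientKerEquivRange f).toEquiv
  have hset : (f.range : Set ((Fin k → RQ K (c + 2)) ⧸ V)).Finite := hrange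
  obtain ⟨Kr, hKr, hKr2⟩ := avoid (A := (Fin k → RQ K (c + 2)) ⧸ V)
    (hset.toFinset.erase 1) (by simp)
  let U : Subgroup (Fin k → RQ K (c + 2)) := Kr.comap (QuotientGroup.mk' V)
  have hU : U.FiniteIndex := fi_comap _ _ hKr
  have hU2 : ∀ ψ : A, hh c gen ψ ∈ U → ψ.1 ∈ N := by
    intro ψ hψ
    have h1 : f ψ = 1 := by
      by_contra h1
      refine hKr2 (f ψ) ?_ hψ
      rw [Finset.mem_erase, Set.Finite.mem_toFinset]
      exact ⟨h1, ψ, rfl⟩
    have h2 : hh c gen ψ ∈ V := by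
      rw [← QuotientGroup.ker_mk' V, MonoidHom.mem_ker]
      exact h1
    obtain ⟨ν, hν, hν2⟩ := h2
    have h3 : hh c gen (ψ * ν⁻¹) = 1 := by
      rw [map_mul, map_inv, hν2, mul_inv_cancel]
    have h4 := h (hh_ker hgen h3)
    have h5 : ψ.1 = (ψ * ν⁻¹ : A).1 * ν.1 := by
      show ψ.1 = ψ.1 * (ν.1)⁻¹ * ν.1
      rw [inv_mul_cancel_right]
    rw [h5]
    exact N.mul_mem h4 hν
  let K₂ : Subgroup K := ⨅ i : Fin k, U.comap
    ((MonoidHom.mulSingle (fun _ : Fin k => RQ K (c + 2)) i).comp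
      (QuotientGroup.mk' ((⊤ : Subgroup K).lowerCentralSeries (c + 2))))
  have hK₂ : K₂.FiniteIndex := Subgroup.finiteIndex_iInf fun i => fi_comap _ _ hU
  have hK₃ : (K₂.map K.subtype).FiniteIndex := by
    refine ⟨?_⟩
    rw [Subgroup.index_map_subtype]
    exact mul_ne_zero hK₂.index_ne_zero hKf.index_ne_zero
  obtain ⟨L, hL1, hL2, hL3⟩ := exists_char hgen _ hK₃
  refine ⟨L, hL1, hL2, ?_⟩
  rintro ψ ⟨h1, h2⟩
  refine hU2 ⟨ψ, h2⟩ ?_
  refine Subgroup.pi_mem_of_mulSingle_mem _ fun i => ?_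
  obtain ⟨y, hy, hy2⟩ := hL3 (h1 (gen i))
  have h3 := (Subgroup.mem_iInf.1 hy) i
  have h4 : y = ⟨(gen i)⁻¹ * ψ (gen i), Subgroup.lowerCentralSeries_le_self K _ (h2 (gen i))⟩ :=
    Subtype.ext hy2
  rw [h4] at h3
  exact h3

/-- **the filtration** -/
theorem filt {k : ℕ} {gen : Fin k → G} (hgen : Subgroup.closure (Set.range gen) = ⊤)
    (hKc : K.Characteristic) (hKf : K.FiniteIndex) (c : ℕ) :
    ∀ N : Subgroup (MulAut G), N.FiniteIndex → AK (K.lowerCentralSeries (c + 1)) ≤ N →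
    ∃ L : Subgroup G, L.Characteristic ∧ L.FiniteIndex ∧
      AK L ⊓ AK (K.lowerCentralSeries 1) ≤ N := by
  induction c with
  | zero =>
    intro N _ h
    exact ⟨⊤, inferInstance, inferInstance, inf_le_right.trans h⟩
  | succ c ih =>
    intro N hN h
    obtain ⟨K₂, a1, a2, a3⟩ := key hgen hKc hKf c N hN h
    have hAK2 : (AK K₂).FiniteIndex := AK_index hgen K₂
    have hD : ((AK K₂ ⊓ N) ⊔ AK (K.lowerCentralSeries (c + 1))).FiniteIndex :=
      Subgroup.finiteIndex_of_le le_sup_left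
    obtain ⟨K₃, b1, b2, b3⟩ := ih _ hD le_sup_right
    refine ⟨K₂ ⊓ K₃, inferInstance, inferInstance, ?_⟩
    rintro ψ ⟨h1, h2⟩
    have h3 : ψ ∈ AK K₂ := AK_mono inf_le_left h1
    have h4 : ψ ∈ (AK K₂ ⊓ N) ⊔ AK (K.lowerCentralSeries (c + 1)) :=
      b3 ⟨AK_mono inf_le_right h1, h2⟩
    have hn : (AK (K.lowerCentralSeries (c + 1))).Normal := AK_normal inferInstance
    rw [Subgroup.mem_sup_of_normal_right] at h4
    obtain ⟨a, ha, b, hb, rfl⟩ := h4
    have h5 : b ∈ AK K₂ := by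
      have := (AK K₂).mul_mem ((AK K₂).inv_mem ha.1) h3
      rwa [inv_mul_cancel_left] at this
    exact N.mul_mem ha.2 (a3 ⟨h5, hb⟩)

lemma isCong_of_AK {N : Subgroup (MulAut G)} (hI : Inn G ≤ N) {L : Subgroup G}
    (h1 : L.Characteristic) (h2 : L.FiniteIndex) (h3 : AK L ≤ N) : IsCong G N := by
  refine ⟨L, h1, h2, ?_⟩
  rintro ψ ⟨g, hg⟩
  have h4 : (MulAut.conj g)⁻¹ * ψ ∈ AK L := by
    intro x
    have h5 : x⁻¹ * ((MulAut.conj g)⁻¹ * ψ) x = (x⁻¹ * g⁻¹) * (ψ x * (g * x * g⁻¹)⁻¹) *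
        (x⁻¹ * g⁻¹)⁻¹ := by
      rw [MulAut.mul_apply, MulAut.conj_inv_apply]
      group
    rw [h5]
    exact (inferInstance : L.Normal).conj_mem _ (hg x) _
  have h6 : ψ = MulAut.conj g * ((MulAut.conj g)⁻¹ * ψ) := by rw [mul_inv_cancel_left]
  rw [h6]
  exact N.mul_mem (hI ⟨g, rfl⟩) (h3 h4)

lemma AK_of_isCong {N : Subgroup (MulAut G)} (h : IsCong G N) :
    ∃ L : Subgroup G, L.Characteristic ∧ L.FiniteIndex ∧ AK L ≤ N := by
  obtain ⟨L, h1, h2, h3⟩ := h
  refine ⟨L, h1, h2, fun ψ hψ => h3 ψ ⟨1, fun x => ?_⟩⟩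
  have h4 := (inferInstance : L.Normal).conj_mem _ (hψ x) x
  have h5 : ψ x * (1 * x * 1⁻¹)⁻¹ = x * (x⁻¹ * ψ x) * x⁻¹ := by group
  rw [h5]
  exact h4

/-- **congruence** -/
theorem cong_of {k : ℕ} {gen : Fin k → G} (hgen : Subgroup.closure (Set.range gen) = ⊤)
    (hKc : K.Characteristic) (hKf : K.FiniteIndex)
    (hbase : ∀ N : Subgroup (MulAut G), N.FiniteIndex → AK (K.lowerCentralSeries 1) ≤ N →
      ∃ L : Subgroup G, L.Characteristic ∧ L.FiniteIndex ∧ AK L ≤ N)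
    (c : ℕ) (N : Subgroup (MulAut G)) (hN : N.FiniteIndex)
    (h : AK (K.lowerCentralSeries (c + 1)) ≤ N) :
    ∃ L : Subgroup G, L.Characteristic ∧ L.FiniteIndex ∧ AK L ≤ N := by
  obtain ⟨L, a1, a2, a3⟩ := filt hgen hKc hKf c N hN h
  have hAK : (AK L).FiniteIndex := AK_index hgen L
  have hD : ((AK L ⊓ N) ⊔ AK (K.lowerCentralSeries 1)).FiniteIndex :=
    Subgroup.finiteIndex_of_le le_sup_left
  obtain ⟨L', b1, b2, b3⟩ := hbase _ hD le_sup_right
  refine ⟨L ⊓ L', inferInstance, inferInstance, ?_⟩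
  intro ψ h1
  have h3 : ψ ∈ AK L := AK_mono inf_le_left h1
  have h4 : ψ ∈ (AK L ⊓ N) ⊔ AK (K.lowerCentralSeries 1) := b3 (AK_mono inf_le_right h1)
  have hn : (AK (K.lowerCentralSeries 1)).Normal := AK_normal inferInstance
  rw [Subgroup.mem_sup_of_normal_right] at h4
  obtain ⟨a, ha, b, hb, rfl⟩ := h4
  have h5 : b ∈ AK L := by
    have := (AK L).mul_mem ((AK L).inv_mem ha.1) h3
    rwa [inv_mul_cancel_left] at this
  exact N.mul_mem ha.2 (a3 ⟨h5, hb⟩)

end Pool.Agent.Q98.JF
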